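import Pool.Agent.C4N.Stm
import Pool.Agent.Helper13_Conc.Basic

/-!
# Module LLB: symmetric local lemma
-/

set_option autoImplicit false

open scoped BigOperators

noncomputable section

namespace Pool.Agent.C4N.H11

open Finset Pool.Agent.C4N

theorem llb : LLBStmt := by
  intro E α ι _ _ _ _ B W D hD hB hW hE hP
  classical
  have hDr : (1 : ℝ) ≤ D := by exact_mod_cast hD
  have hD0 : (0 : ℝ) < D := by linarith
  refine Pool.Agent.Helper13_Conc.lll_sum B W hB (fun _ => 1 / (4 * (D : ℝ) ^ 2))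
    (1 / (4 * (D : ℝ))) (fun _ => by positivity) ?_ ?_ ?_
  · intro _
    rw [div_le_div_iff₀ (by positivity) (by norm_num)]
    nlinarith
  · intro v
    rw [Finset.sum_const, nsmul_eq_mul]
    have h1 : ((univ.filter fun j => v ∈ W j).card : ℝ) ≤ D := by
      have h2 := hE v
      have h3 : (univ.filter fun j => v ∈ W j).card ≤ D := by
        refine le_trans (le_of_eq ?_) h2
        congr
      exact_mod_cast h3
    calc ((univ.filter fun j => v ∈ W j).card : ℝ) * (1 / (4 * (D : ℝ) ^ 2))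
        ≤ D * (1 / (4 * (D : ℝ) ^ 2)) := mul_le_mul_of_nonneg_right h1 (by positivity)
      _ = 1 / (4 * (D : ℝ)) := by
        field_simp
  · intro i
    have h1 : ((W i).card : ℝ) ≤ D := by exact_mod_cast hW i
    have h2 : 2 * (1 / (4 * (D : ℝ))) * ((W i).card : ℝ) ≤ 1 / 2 := by
      calc 2 * (1 / (4 * (D : ℝ))) * ((W i).card : ℝ) ≤ 2 * (1 / (4 * (D : ℝ))) * D :=
            mul_le_mul_of_nonneg_left h1 (by positivity)
        _ = 1 / 2 := by
            field_simp
            norm_num
    have h3 : (1 : ℝ) / 2 ≤ Real.exp (-(2 * (1 / (4 * (D : ℝ))) * ((W i).card : ℝ))) := by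
      have h4 := Real.add_one_le_exp (-(2 * (1 / (4 * (D : ℝ))) * ((W i).card : ℝ)))
      linarith
    have h5 := hP i
    have h6 : ((B i).card : ℝ) ≤ 1 / (16 * (D : ℝ) ^ 2) * Fintype.card (E → α) := by
      rw [div_mul_eq_mul_div, one_mul, le_div_iff₀ (by positivity)]
      exact h5
    refine h6.trans (mul_le_mul_of_nonneg_right ?_ (Nat.cast_nonneg _))
    calc 1 / (16 * (D : ℝ) ^ 2) ≤ 1 / (4 * (D : ℝ) ^ 2) * (1 / 2) := by
          rw [div_mul_div_comm, div_le_div_iff₀ (by positivity) (by positivity)]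
          nlinarith [sq_nonneg (D : ℝ)]
      _ ≤ _ := mul_le_mul_of_nonneg_left h3 (by positivity)

end Pool.Agent.C4N.H11
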